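import Pool.Agent.Helper831.HQ.Main

/-!
# A compact quotient of Hilbert space which is not a biquotient

`R = S³ × S³` with the left invariant Riemannian metric whose value on the Lie algebra
`Im ℍ × Im ℍ` is `|ξ₁|² + |ξ₂|² - (1/4)(⟨ξ₁,i⟩ + √2 ⟨ξ₂,i⟩)²`.  It is the quotient of
`S³ × S³ × ℝ` by the line `θ ↦ (e^{iθ}, e^{√2 iθ}, θ)`, which winds irrationally in a torus.
-/

open scoped Quaternion Matrix.Norms.L2Operator ENNReal
open Set MeasureTheory

noncomputable section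

namespace Pool.Agent.Results.MP_986e36_gt.IrrationalLine

open HQ

/-- `(R, dR)` is isometric to a quotient `ℋ/Γ` of an infinite dimensional real Hilbert space by a
group of isometries. -/
def IsHilbertQuotient {R : Type} (dR : R → R → ℝ≥0∞) : Prop :=
  ∃ (H : Type) (_ : NormedAddCommGroup H) (_ : InnerProductSpace ℝ H),
    CompleteSpace H ∧ ¬ FiniteDimensional ℝ H ∧ ∃ Γ : Subgroup (Equiv.Perm H),
      IsIsometryGroup (fun x y : H => edist x y) Γ ∧ IsQuotient (fun x y : H => edist x y) Γ dR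

/-- `(R, dR)` is a biquotient: it is isometric to `G/Γ`, where `G` is a compact Lie group (a closed
subgroup of a unitary group) with a bi-invariant Riemannian metric, given by the `Ad`-invariant inner
product `B` on the Lie algebra, and `Γ` is a group of isometries of `G`. -/
def IsBiquotient {R : Type} (dR : R → R → ℝ≥0∞) : Prop :=
  ∃ (N : ℕ) (G : Subgroup (Matrix.unitaryGroup (Fin N) ℂ))
    (B : Matrix (Fin N) (Fin N) ℂ →ₗ[ℝ] Matrix (Fin N) (Fin N) ℂ →ₗ[ℝ] ℝ),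
    IsClosed (G : Set (Matrix.unitaryGroup (Fin N) ℂ)) ∧ IsBiinvariant G B ∧
      ∃ Γ : Subgroup (Equiv.Perm G), IsIsometryGroup (dG G B) Γ ∧ IsQuotient (dG G B) Γ dR

/-- The compact simply connected Riemannian manifold `S³ × S³`, with the Riemannian distance `dM` of
the left invariant metric `QM`, is a quotient of Hilbert space by a group of isometries, but it is
not a biquotient. -/
theorem result :
    CompactSpace S33 ∧ SimplyConnectedSpace S33 ∧ (∀ ξ : ℍ × ℍ, ξ ≠ 0 → 0 < QM ξ) ∧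
      (∀ p q : S33, dM p q ≠ ⊤ ∧ (dM p q = 0 ↔ p = q)) ∧
      IsHilbertQuotient dM ∧ ¬ IsBiquotient dM := by
  refine ⟨S33_top.1, S33_top.2, ?_, ?_, ?_, ?_⟩
  · rintro ⟨x, y⟩ h
    have hx : ‖x‖ ^ 2 = x.re ^ 2 + x.imI ^ 2 + x.imJ ^ 2 + x.imK ^ 2 := by
      rw [← Quaternion.normSq_eq_norm_mul_self .. |>.trans (sq ‖x‖).symm, Quaternion.normSq_def']
    have hy : ‖y‖ ^ 2 = y.re ^ 2 + y.imI ^ 2 + y.imJ ^ 2 + y.imK ^ 2 := by
      rw [← Quaternion.normSq_eq_norm_mul_self .. |>.trans (sq ‖y‖).symm, Quaternion.normSq_def']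
    have hs : √2 ^ 2 = 2 := Real.sq_sqrt (by norm_num)
    have hpos : 0 < ‖x‖ ^ 2 + ‖y‖ ^ 2 := by
      by_contra hn
      have h1 : ‖x‖ ^ 2 = 0 := by nlinarith [sq_nonneg ‖x‖, sq_nonneg ‖y‖]
      have h2 : ‖y‖ ^ 2 = 0 := by nlinarith [sq_nonneg ‖x‖, sq_nonneg ‖y‖]
      apply h
      have h3 : x = 0 := norm_eq_zero.1 (pow_eq_zero_iff (two_ne_zero) |>.1 h1)
      have h4 : y = 0 := norm_eq_zero.1 (pow_eq_zero_iff (two_ne_zero) |>.1 h2)
      rw [h3, h4]; rfl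
    show 0 < ‖x‖ ^ 2 + ‖y‖ ^ 2 - (x.imI + √2 * y.imI) ^ 2 / 4
    have h5 : (x.imI + √2 * y.imI) ^ 2 ≤ 3 * (x.imI ^ 2 + y.imI ^ 2) := by
      nlinarith [sq_nonneg (√2 * x.imI - y.imI)]
    have h6 : x.imI ^ 2 ≤ ‖x‖ ^ 2 := by
      rw [hx]; nlinarith [sq_nonneg x.re, sq_nonneg x.imJ, sq_nonneg x.imK]
    have h7 : y.imI ^ 2 ≤ ‖y‖ ^ 2 := by
      rw [hy]; nlinarith [sq_nonneg y.re, sq_nonneg y.imJ, sq_nonneg y.imK]
    nlinarith
  · intro p q
    obtain ⟨h0, h1, -, -, h4, h5⟩ := dF_metric (p : ℍ × ℍ) (q : ℍ × ℍ) (q : ℍ × ℍ) p.2 q.2 q.2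
    rw [dM_eq]
    refine ⟨ENNReal.ofReal_ne_top, fun h => ?_, fun h => ?_⟩
    · have h6 : dF (p : ℍ × ℍ) (q : ℍ × ℍ) = 0 := le_antisymm (ENNReal.ofReal_eq_zero.1 h) h0
      rw [h6, mul_zero] at h4 h5
      have h7 := sub_eq_zero.1 (norm_eq_zero.1 (le_antisymm h4 (norm_nonneg _)))
      have h8 := sub_eq_zero.1 (norm_eq_zero.1 (le_antisymm h5 (norm_nonneg _)))
      exact Subtype.ext (Prod.ext h7 h8)
    · subst h
      rw [h1, ENNReal.ofReal_zero]
  · obtain ⟨Γ, h1, h2⟩ := hilbert_part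
    exact ⟨UniformSpace.Completion Ctrl, inferInstance, inferInstance, inferInstance,
      ctrl_infinite, Γ, h1, h2⟩
  · rintro ⟨N, G, B, hG, hB, Γ, -, hq⟩
    exact not_biquotient G hG B hB Γ hq

end Pool.Agent.Results.MP_986e36_gt.IrrationalLine
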